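import Pool.Agent.H63.WT.TC

/-! Row DTE: existence of the local data. -/

set_option autoImplicit false

open Polynomial Matrix Pool.Agent.H63.WT

namespace Pool.Agent.H68.WTQ

theorem pf_DTE (hMEX : T_MEX) (hRAM : T_RAM) (hNRS : T_NRS) (hNSQ : T_NSQ) : T_DTE := by
  intro F _ _ _ _ P1 P2 D hP1 hP2 hsep hdeg hev hcop hr1 hr2 hcz
  have h2 : (2 : F) ≠ 0 := two_ne_zero
  obtain ⟨m, M0, z, hm, hM0, hd0, hs0, hc0, hcz0, hdvd⟩ := hMEX F (P1 * P2) D (hP1.mul hP2)
    (by rw [hP1.natDegree_mul hP2, hdeg]) hsep hcop hcz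
  have hu : IsUnit (C m) := isUnit_C.2 (isUnit_iff_ne_zero.2 hm)
  have hcM : IsCoprime (P1 * P2) (C m * M0) := (isCoprime_mul_unit_left_right hu _ _).2 hc0
  have hc1 : IsCoprime P1 (C m * M0) := hcM.of_mul_left_left
  have hc2 : IsCoprime P2 (C m * M0) := hcM.of_mul_left_right
  have hD1 : IsCoprime P1 D := hcop.of_mul_left_left
  have hD2 : IsCoprime P2 D := hcop.of_mul_left_right
  obtain ⟨R1, U1, hR1, hU1, hf1, hs1, hm1⟩ := hRAM F h2 P1 (C m * M0) hP1 hsep.of_mul_left hc1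
  obtain ⟨R2, U2, hR2, hU2, hf2, hs2, hm2⟩ := hRAM F h2 P2 (C m * M0) hP2 hsep.of_mul_right hc2
  refine ⟨m, M0, R1, R2, U1, U2, z, ?_, hcz0, hdvd⟩
  exact
    { m0 := hm
      mon0 := hM0
      sep0 := hs0
      deg0 := hd0
      mon1 := hP1
      mon2 := hP2
      monR1 := hR1
      monR2 := hR2
      monU1 := hU1
      monU2 := hU2
      fac1 := hf1
      fac2 := hf2
      sep := hsep
      cop := hc0
      even1 := hev
      odd2 := by
        rw [Nat.odd_iff]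
        have := Nat.even_iff.1 hev
        omega
      sq1 := hs1
      sq2 := hs2
      ram1 := hm1
      ram2 := hm2
      nn1 := (hNSQ F P1 (C m * M0) D z hP1 hc1 hD1 ((dvd_mul_right _ _).trans hdvd)).2
        ((hNRS F P1 D hP1 hD1).1 hr1)
      nn2 := (hNSQ F P2 (C m * M0) D z hP2 hc2 hD2 ((dvd_mul_left _ _).trans hdvd)).2
        ((hNRS F P2 D hP2 hD2).1 hr2) }

end Pool.Agent.H68.WTQ
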