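import Pool.Agent.H63.WT.TA

/-! Rows I2D and I2A: membership in `I²`. -/

set_option autoImplicit false

open Polynomial Matrix Pool.Agent.H63.WT

namespace Pool.Agent.H68.WTQ

theorem sn_blocks {F ι κ : Type} [Field F] [Fintype ι] [DecidableEq ι] [Fintype κ]
    [DecidableEq κ] {A : Matrix ι ι F} {B : Matrix κ κ F} (hA : SN A) (hB : SN B) :
    SN (fromBlocks A 0 0 B) := by
  refine ⟨?_, ?_⟩
  · rw [Matrix.IsSymm, fromBlocks_transpose, hA.1.eq, hB.1.eq, transpose_zero, transpose_zero]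
  · rw [det_fromBlocks_zero₂₁]
    exact mul_ne_zero hA.2 hB.2

theorem sn_neg {F ι : Type} [Field F] [Fintype ι] [DecidableEq ι] {A : Matrix ι ι F}
    (hA : SN A) : SN (-A) := by
  refine ⟨?_, ?_⟩
  · rw [Matrix.IsSymm, transpose_neg, hA.1.eq]
  · rw [det_neg]
    exact mul_ne_zero (pow_ne_zero _ (neg_ne_zero.2 one_ne_zero)) hA.2

/-- the same form on another index type -/
theorem cls_submatrix {F : Type} [Field F] (h2 : (2 : F) ≠ 0) (hCLS : T_CLS) {ι κ : Type}
    [Fintype ι] [DecidableEq ι] [Fintype κ] [DecidableEq κ] (A : Matrix ι ι F) (hA : SN A)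
    (e : κ ≃ ι) : SN (A.submatrix e e) ∧ cls (A.submatrix e e) = cls A := by
  have h := (hCLS F h2).2.2.1 ι κ A ((1 : Matrix ι ι F).submatrix id e)
    ((1 : Matrix ι ι F).submatrix e id) hA
    (by rw [submatrix_mul_equiv _ _ id e id, Matrix.mul_one, submatrix_id_id])
    (by
      have := submatrix_mul_equiv (1 : Matrix ι ι F) (1 : Matrix ι ι F) e (Equiv.refl ι) e
      rw [Equiv.coe_refl] at this
      rw [this, Matrix.mul_one]
      exact submatrix_one_equiv e)
  have h3 : ((1 : Matrix ι ι F).submatrix id e)ᵀ * A * (1 : Matrix ι ι F).submatrix id e =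
      A.submatrix e e := by
    rw [transpose_submatrix, transpose_one]
    have k1 := submatrix_mul_equiv (1 : Matrix ι ι F) A e (Equiv.refl ι) id
    rw [Equiv.coe_refl, Matrix.one_mul, submatrix_id_id] at k1
    rw [k1]
    have k2 := submatrix_mul_equiv A (1 : Matrix ι ι F) e (Equiv.refl ι) e
    rw [Equiv.coe_refl, Matrix.mul_one] at k2
    exact k2
  rw [h3] at h
  exact h

theorem pf_I2D (hMDS : T_MDS) (hW0 : T_W0) (hCLS : T_CLS) : T_I2D := by
  intro F _ h2 ι _ _ A r hA hcard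
  constructor
  · rintro ⟨n, A', hA', hsq, hcl⟩
    have hN := sn_neg hA'
    have hB := sn_blocks hA hN
    have hc : cls (fromBlocks A 0 0 (-A')) = 0 := by
      rw [(hCLS F h2).2.1 ι (Fin (2 * n)) A (-A') hA hN, (hCLS F h2).2.2.2.1 _ A' hA', hcl,
        add_neg_cancel]
    have hm := hW0 F h2 _ _ hB hc
    have hs := hMDS F h2 _ (fromBlocks A 0 0 (-A')) (r + n) hB hm (by
      rw [Fintype.card_sum, hcard, Fintype.card_fin]
      ring)
    rw [det_fromBlocks_zero₂₁, det_neg, Fintype.card_fin] at hs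
    have e1 : (-1 : F) ^ (r + n) * (A.det * ((-1) ^ (2 * n) * A'.det)) =
        ((-1) ^ r * A.det) * ((-1) ^ n * A'.det) := by
      rw [pow_mul, neg_one_sq, one_pow, pow_add]
      ring
    rw [e1] at hs
    have hne : (-1 : F) ^ n * A'.det ≠ 0 :=
      mul_ne_zero (pow_ne_zero _ (neg_ne_zero.2 one_ne_zero)) hA'.2
    have := hs.div hsq
    rwa [mul_div_cancel_right₀ _ hne] at this
  · intro hs
    have e : Fin (2 * r) ≃ ι := (Fintype.equivFinOfCardEq hcard).symm
    obtain ⟨h3, h4⟩ := cls_submatrix h2 hCLS A hA e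
    refine ⟨r, A.submatrix e e, h3, ?_, h4.symm⟩
    rwa [det_submatrix_equiv_self]

theorem pf_I2A (hI2D : T_I2D) (hCLS : T_CLS) : T_I2A := by
  intro F _ h2
  refine ⟨?_, ?_, ?_⟩
  · have hsn : SN (1 : Matrix (Fin (2 * 0)) (Fin (2 * 0)) F) :=
      ⟨isSymm_one, by rw [det_one]; exact one_ne_zero⟩
    refine ⟨0, 1, hsn, ?_, ?_⟩
    · rw [det_one, pow_zero, one_mul]
      exact IsSquare.one
    · refine ((hCLS F h2).1 _ _ hsn ⟨0, by simp, ?_⟩).symm
      exact ⟨Fin.elim0, linearIndependent_empty_type, fun i => i.elim0⟩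
  · rintro x y ⟨m, A, hA, hs, rfl⟩ ⟨n, B, hB, ht, rfl⟩
    rw [← (hCLS F h2).2.1 _ _ A B hA hB]
    refine (hI2D F h2 _ _ (m + n) (sn_blocks hA hB) (by simp; ring)).2 ?_
    rw [det_fromBlocks_zero₂₁]
    have e1 : (-1 : F) ^ (m + n) * (A.det * B.det) =
        ((-1) ^ m * A.det) * ((-1) ^ n * B.det) := by
      rw [pow_add]
      ring
    rw [e1]
    exact hs.mul ht
  · rintro x ⟨n, A, hA, hs, rfl⟩
    refine ⟨n, -A, sn_neg hA, ?_, ((hCLS F h2).2.2.2.1 _ A hA).symm⟩
    rw [det_neg, Fintype.card_fin, pow_mul, neg_one_sq, one_pow, one_mul]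
    exact hs

end Pool.Agent.H68.WTQ
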