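import Pool.Agent.H68.WTQ.I2D

/-! Row ONE: forms in one variable and diagonal forms. -/

set_option autoImplicit false

open Polynomial Matrix Pool.Agent.H63.WT Module

namespace Pool.Agent.H68.WTQ

theorem sn_one {F : Type} [Field F] {a : F} (ha : a ≠ 0) :
    SN (fun _ _ : Fin 1 => a : Matrix (Fin 1) (Fin 1) F) := by
  refine ⟨?_, ?_⟩
  · ext i j
    rfl
  · rw [det_fin_one]
    exact ha

theorem sn_diagonal {F ι : Type} [Field F] [Fintype ι] [DecidableEq ι] {a : ι → F}
    (ha : ∀ i, a i ≠ 0) : SN (Matrix.diagonal a) := by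
  refine ⟨isSymm_diagonal a, ?_⟩
  rw [det_diagonal]
  exact Finset.prod_ne_zero_iff.2 fun i _ => ha i

theorem cls_diag_fin {F : Type} [Field F] (h2 : (2 : F) ≠ 0) (hCLS : T_CLS) :
    ∀ (n : ℕ) (a : Fin n → F), (∀ i, a i ≠ 0) →
    cls (Matrix.diagonal a) = ∑ i, on (a i) := by
  intro n
  induction n with
  | zero =>
    intro a ha
    rw [Fin.sum_univ_zero]
    exact (hCLS F h2).1 _ _ (sn_diagonal ha)
      ⟨0, by simp, Fin.elim0, linearIndependent_empty_type, fun i => i.elim0⟩
  | succ n ih =>
    intro a ha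
    have hS := sn_diagonal ha
    have h1 := (cls_submatrix h2 hCLS (Matrix.diagonal a) hS
      (finSumFinEquiv : Fin n ⊕ Fin 1 ≃ Fin (n + 1))).2
    have e1 : (Matrix.diagonal a).submatrix (finSumFinEquiv : Fin n ⊕ Fin 1 ≃ Fin (n + 1))
        (finSumFinEquiv : Fin n ⊕ Fin 1 ≃ Fin (n + 1)) =
        fromBlocks (Matrix.diagonal fun i => a (Fin.castSucc i)) 0 0
          (fun _ _ : Fin 1 => a (Fin.last n)) := by
      ext i j
      rcases i with i | i <;> rcases j with j | j
      · simp only [submatrix_apply, fromBlocks_apply₁₁, finSumFinEquiv_apply_left]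
        by_cases h : i = j
        · subst h
          rw [diagonal_apply_eq, diagonal_apply_eq]
          rfl
        · rw [diagonal_apply_ne _ h, diagonal_apply_ne]
          intro h'
          exact h (Fin.castAdd_injective n 1 h')
      · simp only [submatrix_apply, fromBlocks_apply₁₂, finSumFinEquiv_apply_left,
          finSumFinEquiv_apply_right, Matrix.zero_apply]
        rw [diagonal_apply_ne]
        intro h'
        have := congrArg Fin.val h'
        simp only [Fin.val_castAdd, Fin.val_natAdd] at this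
        omega
      · simp only [submatrix_apply, fromBlocks_apply₂₁, finSumFinEquiv_apply_left,
          finSumFinEquiv_apply_right, Matrix.zero_apply]
        rw [diagonal_apply_ne]
        intro h'
        have := congrArg Fin.val h'
        simp only [Fin.val_castAdd, Fin.val_natAdd] at this
        omega
      · simp only [submatrix_apply, fromBlocks_apply₂₂, finSumFinEquiv_apply_right]
        have hij : i = j := Subsingleton.elim _ _
        subst hij
        rw [diagonal_apply_eq]
        congr 1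
        ext
        simp only [Fin.val_natAdd, Fin.val_last]
        omega
    rw [← h1, e1, (hCLS F h2).2.1 _ _ _ _ (sn_diagonal fun i => ha (Fin.castSucc i))
      (sn_one (ha (Fin.last n))), ih _ fun i => ha (Fin.castSucc i), Fin.sum_univ_castSucc]
    rfl

theorem cls_diag {F : Type} [Field F] (h2 : (2 : F) ≠ 0) (hCLS : T_CLS) (ι : Type) [Fintype ι]
    [DecidableEq ι] (a : ι → F) (ha : ∀ i, a i ≠ 0) :
    cls (Matrix.diagonal a) = ∑ i, on (a i) := by
  have h1 := (cls_submatrix h2 hCLS (Matrix.diagonal a) (sn_diagonal ha)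
    (Fintype.equivFin ι).symm).2
  rw [← h1, submatrix_diagonal_equiv,
    cls_diag_fin h2 hCLS _ (a ∘ (Fintype.equivFin ι).symm) fun i => ha _]
  exact Equiv.sum_comp (Fintype.equivFin ι).symm fun i => on (a i)

/-- diagonalisation -/
theorem exists_diag {F : Type} [Field F] (h2 : (2 : F) ≠ 0) {n : ℕ}
    (A : Matrix (Fin n) (Fin n) F) (hA : SN A) :
    ∃ (m : ℕ) (U : Matrix (Fin n) (Fin m) F) (V : Matrix (Fin m) (Fin n) F) (d : Fin m → F),
      U * V = 1 ∧ V * U = 1 ∧ Uᵀ * A * U = Matrix.diagonal d := by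
  have : Invertible (2 : F) := invertibleOfNonzero h2
  have hsym : LinearMap.IsSymm (Matrix.toBilin' A) := by
    refine ⟨fun x y => ?_⟩
    rw [RingHom.id_apply, Matrix.toBilin'_apply', Matrix.toBilin'_apply', dotProduct_comm,
      dotProduct_comm y, dotProduct_comm, Matrix.dotProduct_mulVec, ← mulVec_transpose,
      hA.1.eq, dotProduct_comm]
  obtain ⟨v, hv⟩ := LinearMap.BilinForm.exists_orthogonal_basis hsym
  refine ⟨_, (Pi.basisFun F (Fin n)).toMatrix v, v.toMatrix (Pi.basisFun F (Fin n)),
    fun i => Matrix.toBilin' A (v i) (v i), Basis.toMatrix_mul_toMatrix_flip _ _,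
    Basis.toMatrix_mul_toMatrix_flip _ _, ?_⟩
  have h := LinearMap.BilinForm.toMatrix_mul_basis_toMatrix (Pi.basisFun F (Fin n)) v
    (Matrix.toBilin' A)
  rw [LinearMap.BilinForm.toMatrix_basisFun, LinearMap.BilinForm.toMatrix'_toBilin'] at h
  rw [h]
  ext i j
  rw [LinearMap.BilinForm.toMatrix_apply]
  by_cases hij : i = j
  · subst hij
    rw [diagonal_apply_eq]
  · rw [diagonal_apply_ne _ hij]
    exact hv hij

theorem pf_ONE (hCLS : T_CLS) : T_ONE := by
  intro F _ h2
  refine ⟨?_, ?_, fun ι _ _ a ha => cls_diag h2 hCLS ι a ha, ?_⟩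
  · intro a b ha hb
    have h := ((hCLS F h2).2.2.1 (Fin 1) (Fin 1) (fun _ _ => a) (fun _ _ => b)
      (fun _ _ => b⁻¹) (sn_one ha)
      (by
        ext i j
        rw [Matrix.mul_apply, Fin.sum_univ_one, mul_inv_cancel₀ hb, Subsingleton.elim i j,
          one_apply_eq])
      (by
        ext i j
        rw [Matrix.mul_apply, Fin.sum_univ_one, inv_mul_cancel₀ hb, Subsingleton.elim i j,
          one_apply_eq])).2
    unfold on
    rw [← h]
    congr 1
    ext i j
    rw [Matrix.mul_apply, Fin.sum_univ_one, Matrix.mul_apply, Fin.sum_univ_one]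
    show a * b ^ 2 = b * a * b
    ring
  · intro a ha
    have h := (hCLS F h2).2.2.2.1 (Fin 1) (fun _ _ => a) (sn_one ha)
    unfold on
    rw [← h]
    rfl
  · intro x
    obtain ⟨n, A, hA, rfl⟩ := (hCLS F h2).2.2.2.2 x
    obtain ⟨m, U, V, d, hUV, hVU, hd⟩ := exists_diag h2 A hA
    obtain ⟨h3, h4⟩ := (hCLS F h2).2.2.1 _ _ A U V hA hUV hVU
    rw [hd] at h3 h4
    have hd0 : ∀ i, d i ≠ 0 := by
      have := h3.2
      rw [det_diagonal] at this
      exact fun i => Finset.prod_ne_zero_iff.1 this i (Finset.mem_univ i)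
    exact ⟨m, d, hd0, by rw [← h4, cls_diag h2 hCLS _ d hd0]⟩

end Pool.Agent.H68.WTQ
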