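import Pool.Agent.H68.WTQ.ONE

/-! Row PFI: binary Pfister forms. -/

set_option autoImplicit false

open Polynomial Matrix Pool.Agent.H63.WT Module
open Pool.Agent.H32.QC (Sol)

namespace Pool.Agent.H68.WTQ

theorem pf_PFI (hI2D : T_I2D) (hW0 : T_W0) (hCLS : T_CLS) (hONE : T_ONE) (hAN4 : T_AN4) :
    T_PFI := by
  intro F _ h2 a b ha hb
  obtain ⟨hO1, hO2, hO3, hO4⟩ := hONE F h2
  obtain ⟨d, hd⟩ : ∃ d : Fin 4 → F, d = ![1, -a, -b, a * b] := ⟨_, rfl⟩
  have hd0 : ∀ i, d i ≠ 0 := by
    intro i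
    rw [hd]
    fin_cases i
    · exact one_ne_zero
    · exact neg_ne_zero.2 ha
    · exact neg_ne_zero.2 hb
    · exact mul_ne_zero ha hb
  have hS := sn_diagonal hd0
  have hpf : pf a b = cls (Matrix.diagonal d) := by
    rw [hO3 _ d hd0, Fin.sum_univ_four, hd]
    show on 1 - on a - on b + on (a * b) = on 1 + on (-a) + on (-b) + on (a * b)
    rw [hO2 a ha, hO2 b hb]
    abel
  have hdet : (Matrix.diagonal d).det = (a * b) ^ 2 := by
    rw [det_diagonal, Fin.prod_univ_four, hd]
    show 1 * -a * -b * (a * b) = (a * b) ^ 2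
    ring
  have hsq : IsSquare (Matrix.diagonal d).det := by
    rw [hdet]
    exact ⟨a * b, sq _⟩
  have hval : ∀ v : Fin 4 → F, v ⬝ᵥ (Matrix.diagonal d *ᵥ v) =
      v 0 ^ 2 - a * v 1 ^ 2 - b * v 2 ^ 2 + a * b * v 3 ^ 2 := by
    intro v
    simp only [mulVec_diagonal, dotProduct, Fin.sum_univ_four]
    rw [hd]
    show v 0 * (1 * v 0) + v 1 * (-a * v 1) + v 2 * (-b * v 2) + v 3 * (a * b * v 3) = _
    ring
  refine ⟨?_, ?_⟩
  · rw [hpf]
    refine (hI2D F h2 _ _ 2 hS (by simp)).2 ?_
    rw [neg_one_sq, one_mul]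
    exact hsq
  · rw [hpf]
    constructor
    · intro h
      obtain ⟨r, hr, v, hv, hv0⟩ := hW0 F h2 _ _ hS h
      rw [Fintype.card_fin] at hr
      have hr2 : r = 2 := by omega
      subst hr2
      -- a vector with last coordinate zero
      obtain ⟨w, hw, hw3, hwq⟩ : ∃ w : Fin 4 → F, w ≠ 0 ∧ w 3 = 0 ∧
          w ⬝ᵥ (Matrix.diagonal d *ᵥ w) = 0 := by
        by_cases h3 : v 0 3 = 0
        · exact ⟨v 0, hv.ne_zero 0, h3, hv0 0 0⟩
        · refine ⟨v 1 3 • v 0 - v 0 3 • v 1, ?_, ?_, ?_⟩
          · intro h0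
            have := (Fintype.linearIndependent_iff.1 hv) ![v 1 3, -v 0 3] (by
              rw [Fin.sum_univ_two]
              show v 1 3 • v 0 + (-v 0 3) • v 1 = 0
              rw [neg_smul, ← sub_eq_add_neg, h0]) 1
            exact h3 (neg_eq_zero.1 this)
          · show v 1 3 * v 0 3 - v 0 3 * v 1 3 = 0
            ring
          · rw [mulVec_sub, mulVec_smul, mulVec_smul, sub_dotProduct, dotProduct_sub,
              dotProduct_sub]
            simp only [smul_dotProduct, dotProduct_smul, hv0, smul_zero, sub_zero]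
      rw [hval, hw3] at hwq
      refine ⟨w 1, w 2, w 0, ?_, by linear_combination hwq⟩
      by_contra hc
      push Not at hc
      apply hw
      funext i
      fin_cases i
      · exact hc.2.2
      · exact hc.1
      · exact hc.2.1
      · exact hw3
    · rintro ⟨x, y, z, hne, hz⟩
      refine (hCLS F h2).1 _ _ hS ?_
      refine (hAN4 F h2 _ _ (by simp) hS hsq).2 ?_
      intro han
      have hv : (![z, x, y, 0] : Fin 4 → F) ≠ 0 := by
        intro h0
        have e0 := congrFun h0 0
        have e1 := congrFun h0 1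
        have e2 := congrFun h0 2
        rcases hne with h | h | h
        · exact h e1
        · exact h e2
        · exact h e0
      refine han _ hv ?_
      rw [hval]
      show z ^ 2 - a * x ^ 2 - b * y ^ 2 + a * b * 0 ^ 2 = 0
      rw [hz]
      ring

end Pool.Agent.H68.WTQ
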